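import Pool.Agent.Run7.h105.PC.Defs

/-!
# Project PC (helper105), pieces UPK and LOWC
-/

set_option autoImplicit false

open Filter Topology Set MeasureTheory
open scoped ENNReal

namespace Pool.Agent.Run7.h136.PC

open Pool.Agent.Run7.h105.PC

/-- the cell of a point -/
theorem loc {k : ℕ} (hk : 1 ≤ k) {y : ℝ} (hy : y ∈ Icc (0 : ℝ) 1) :
    ∃ i : ℕ, i ≤ k ∧ (i : ℝ) / k ≤ y ∧ y < ((i : ℝ) + 1) / k := by
  have hk0 : (0 : ℝ) < k := by exact_mod_cast hk
  have h0 : 0 ≤ (k : ℝ) * y := mul_nonneg hk0.le hy.1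
  refine ⟨⌊(k : ℝ) * y⌋₊, ?_, ?_, ?_⟩
  · apply Nat.floor_le_of_le
    nlinarith [hy.2]
  · rw [div_le_iff₀ hk0]
    have := Nat.floor_le h0
    linarith
  · rw [lt_div_iff₀ hk0]
    have := Nat.lt_floor_add_one ((k : ℝ) * y)
    linarith

theorem mem_cells {K : Set ℝ} {k i : ℕ} :
    i ∈ cells K k ↔ i < k + 1 ∧ ∃ x ∈ K, (i : ℝ) / k ≤ x ∧ x < ((i : ℝ) + 1) / k := by
  simp only [cells, Finset.mem_filter, Finset.mem_range]

theorem mem_bad {K : Set ℝ} {k p i : ℕ} :
    i ∈ bad K k p ↔ i ∈ cells K k ∧ ∃ j, i * p ≤ j ∧ j < (i + 1) * p ∧ j ∉ cells K (k * p) := by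
  simp only [bad, Finset.mem_filter]

/-- the subcell of a point of a half-open cell -/
theorem sub_loc {k p i : ℕ} (hk : 1 ≤ k) (hp : 1 ≤ p) {t : ℝ} (h1 : (i : ℝ) / k ≤ t)
    (h2 : t < ((i : ℝ) + 1) / k) : ∃ j : ℕ, i * p ≤ j ∧ j < (i + 1) * p ∧
      (j : ℝ) / ((k * p : ℕ) : ℝ) ≤ t ∧ t < ((j : ℝ) + 1) / ((k * p : ℕ) : ℝ) := by
  have hk0 : (0 : ℝ) < k := by exact_mod_cast hk
  have hp0 : (0 : ℝ) < p := by exact_mod_cast hp
  have hkp : (0 : ℝ) < ((k * p : ℕ) : ℝ) := by push_cast; positivity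
  have hi0 : (0 : ℝ) ≤ i := Nat.cast_nonneg _
  rw [div_le_iff₀ hk0] at h1
  rw [lt_div_iff₀ hk0] at h2
  have h0 : 0 ≤ ((k * p : ℕ) : ℝ) * t := by
    have : 0 ≤ t := by
      by_contra hc
      push Not at hc
      nlinarith
    positivity
  refine ⟨⌊((k * p : ℕ) : ℝ) * t⌋₊, ?_, ?_, ?_, ?_⟩
  · apply Nat.le_floor
    push_cast
    nlinarith
  · rw [Nat.floor_lt h0]
    push_cast
    nlinarith
  · rw [div_le_iff₀ hkp]
    have := Nat.floor_le h0
    linarith
  · rw [lt_div_iff₀ hkp]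
    have := Nat.lt_floor_add_one (((k * p : ℕ) : ℝ) * t)
    linarith

/-- near every point of a good cell there is a point of `K` -/
theorem near {K : Set ℝ} {k p i : ℕ} (hk : 1 ≤ k) (hp : 1 ≤ p) (hi : i ∈ cells K k)
    (hb : i ∉ bad K k p) {t : ℝ} (h1 : (i : ℝ) / k ≤ t) (h2 : t ≤ ((i : ℝ) + 1) / k) :
    ∃ z ∈ K, |t - z| ≤ 1 / ((k : ℝ) * p) := by
  have hk0 : (0 : ℝ) < k := by exact_mod_cast hk
  have hp0 : (0 : ℝ) < p := by exact_mod_cast hp
  have hkp : (0 : ℝ) < (k : ℝ) * p := by positivity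
  have hall : ∀ j, i * p ≤ j → j < (i + 1) * p → j ∈ cells K (k * p) := by
    intro j hj1 hj2
    by_contra hc
    exact hb (mem_bad.2 ⟨hi, j, hj1, hj2, hc⟩)
  obtain ⟨j, hj1, hj2, hj3, hj4⟩ : ∃ j : ℕ, i * p ≤ j ∧ j < (i + 1) * p ∧
      (j : ℝ) / ((k : ℝ) * p) ≤ t ∧ t ≤ ((j : ℝ) + 1) / ((k : ℝ) * p) := by
    rcases lt_or_eq_of_le h2 with h | h
    · obtain ⟨j, a1, a2, a3, a4⟩ := sub_loc hk hp h1 h
      push_cast at a3 a4
      exact ⟨j, a1, a2, a3, a4.le⟩
    · have e1 : i * p + (p - 1) + 1 = (i + 1) * p := by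
        have : (i + 1) * p = i * p + p := by ring
        omega
      refine ⟨i * p + (p - 1), by omega, by omega, ?_, ?_⟩
      · rw [h, div_le_div_iff₀ hkp hk0]
        have e2 : ((i * p + (p - 1) : ℕ) : ℝ) + 1 = ((i : ℝ) + 1) * p := by exact_mod_cast e1
        nlinarith
      · rw [h, div_le_div_iff₀ hk0 hkp]
        have e2 : ((i * p + (p - 1) : ℕ) : ℝ) + 1 = ((i : ℝ) + 1) * p := by exact_mod_cast e1
        rw [e2]
        nlinarith
  obtain ⟨_, z, hz, hz1, hz2⟩ := mem_cells.1 (hall j hj1 hj2)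
  push_cast at hz1 hz2
  refine ⟨z, hz, ?_⟩
  have e : ((j : ℝ) + 1) / ((k : ℝ) * p) = (j : ℝ) / ((k : ℝ) * p) + 1 / ((k : ℝ) * p) := by
    rw [add_div]
  rw [e] at hz2 hj4
  rw [abs_le]
  constructor <;> linarith

theorem U_sum (s : ℝ) (F : Finset ℕ) (f : ℕ → Multiset ℝ) (y : ℝ) :
    U s (∑ i ∈ F, f i) y = ∑ i ∈ F, U s (f i) y := by
  classical
  induction F using Finset.induction_on with
  | empty => simp [U]
  | insert a F ha ih => rw [Finset.sum_insert ha, Finset.sum_insert ha, U_add, ih]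

theorem U_le_sum (s : ℝ) (F : Finset ℕ) (f : ℕ → Multiset ℝ) (y : ℝ) {i : ℕ} (hi : i ∈ F) :
    U s (f i) y ≤ U s (∑ i ∈ F, f i) y := by
  rw [U_sum]
  exact Finset.single_le_sum (f := fun i => U s (f i) y) (fun _ _ => bot_le) hi

theorem rpow_anti {s a b : ℝ} (hs : 0 < s) (h : a ≤ b) :
    (ENNReal.ofReal b) ^ (-s) ≤ (ENNReal.ofReal a) ^ (-s) := by
  rw [ENNReal.rpow_neg, ENNReal.rpow_neg]
  exact ENNReal.inv_le_inv.2 (ENNReal.rpow_le_rpow (ENNReal.ofReal_le_ofReal h) hs.le)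

theorem t_UPK (hSC : S_SC) (hPERT : S_PERT) (hG1 : S_G1) : S_UPK := by
  classical
  intro s hs K hK m r k hm hr hk
  obtain ⟨C, hC1, hC2, hC3⟩ := hG1 s hs m
  have hm0 : (0 : ℝ) < m := by exact_mod_cast hm
  have hr0 : (0 : ℝ) < r := by exact_mod_cast hr
  have hk0 : (0 : ℝ) < k := by exact_mod_cast hk
  obtain ⟨p, hp⟩ : ∃ p : ℕ, p = m * r ^ 2 := ⟨_, rfl⟩
  have hp1 : 1 ≤ p := by rw [hp]; exact Nat.one_le_iff_ne_zero.2 (by positivity)
  have hp0 : (0 : ℝ) < p := by exact_mod_cast hp1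
  have hpc : (p : ℝ) = m * r ^ 2 := by rw [hp]; push_cast; ring
  obtain ⟨δ, hδ⟩ : ∃ δ : ℝ, δ = 1 / ((m : ℝ) * k) := ⟨_, rfl⟩
  have hδ0 : 0 < δ := by rw [hδ]; positivity
  obtain ⟨θ, hθ⟩ : ∃ θ : ℝ, θ = 1 / (r : ℝ) := ⟨_, rfl⟩
  have hθ0 : 0 < θ := by rw [hθ]; positivity
  have hθ1 : θ ≤ 1 := by
    rw [hθ, div_le_one hr0]
    exact_mod_cast hr
  have hθδ : θ ^ 2 * δ = 1 / ((k : ℝ) * p) := by
    rw [hθ, hδ, hpc]
    field_simp
  have hδm : δ * m = 1 / k := by
    rw [hδ]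
    field_simp
  have hle : δ ≤ (1 + θ) * δ := by nlinarith
  have hsmall : 1 / ((k : ℝ) * p) ≤ (1 + θ) * δ := by
    rw [← hθδ]
    nlinarith [mul_pos hθ0 hδ0]
  rw [← hp, ← hδ, ← hθ]
  have hcell : ∀ i ∈ cells K k, ∃ Xi : Multiset ℝ, (∀ x ∈ Xi, x ∈ K) ∧
      Xi.card ≤ G s m + (if i ∈ bad K k p then p else 0) ∧
      ∀ y ∈ K, (i : ℝ) / k ≤ y → y < ((i : ℝ) + 1) / k →
        (ENNReal.ofReal ((1 + θ) * δ)) ^ (-s) ≤ U s Xi y := by
    intro i hi
    by_cases hb : i ∈ bad K k p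
    · obtain ⟨_, x₀, hx₀, _, _⟩ := mem_cells.1 hi
      have hg : ∀ j : ℕ, ∃ g ∈ K, j ∈ cells K (k * p) →
          (j : ℝ) / ((k * p : ℕ) : ℝ) ≤ g ∧ g < ((j : ℝ) + 1) / ((k * p : ℕ) : ℝ) := by
        intro j
        by_cases hj : j ∈ cells K (k * p)
        · obtain ⟨_, x, hx, h1, h2⟩ := mem_cells.1 hj
          exact ⟨x, hx, fun _ => ⟨h1, h2⟩⟩
        · exact ⟨x₀, hx₀, fun h => absurd h hj⟩
      choose g hg1 hg2 using hg
      refine ⟨(Multiset.range p).map (fun j => g (i * p + j)), ?_, ?_, ?_⟩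
      · intro x hx
        rw [Multiset.mem_map] at hx
        obtain ⟨j, _, rfl⟩ := hx
        exact hg1 _
      · rw [Multiset.card_map, Multiset.card_range, if_pos hb]
        omega
      · intro y hy h1 h2
        obtain ⟨j, a1, a2, a3, a4⟩ := sub_loc hk hp1 h1 h2
        have hjc : j ∈ cells K (k * p) := by
          refine mem_cells.2 ⟨?_, y, hy, a3, a4⟩
          have hkp : (0 : ℝ) < ((k * p : ℕ) : ℝ) := by push_cast; positivity
          rw [div_le_iff₀ hkp] at a3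
          have h3 := (hK hy).2
          have h4 : (j : ℝ) ≤ ((k * p : ℕ) : ℝ) := by nlinarith
          have h5 : j ≤ k * p := by exact_mod_cast h4
          omega
        obtain ⟨b1, b2⟩ := hg2 j hjc
        refine le_U_of_mem hs (x := g j) ?_ ?_
        · rw [Multiset.mem_map]
          refine ⟨j - i * p, ?_, ?_⟩
          · rw [Multiset.mem_range]
            have : (i + 1) * p = i * p + p := by ring
            omega
          · congr 1
            omega
        · refine le_trans ?_ hsmall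
          push_cast at a3 a4 b1 b2
          rw [add_div] at a4 b2
          rw [abs_le]
          constructor <;> linarith
    · have hz : ∀ x : ℝ, ∃ z : ℝ, x ∈ Icc (0 : ℝ) m → z ∈ K ∧
          |((i : ℝ) / k + δ * x) - z| ≤ 1 / ((k : ℝ) * p) := by
        intro x
        by_cases hx : x ∈ Icc (0 : ℝ) m
        · obtain ⟨z, hz, hz'⟩ := near (t := (i : ℝ) / k + δ * x) hk hp1 hi hb
            (by nlinarith [hx.1, mul_nonneg hδ0.le hx.1])
            (by
              rw [add_div, ← hδm]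
              have := mul_le_mul_of_nonneg_left hx.2 hδ0.le
              linarith)
          exact ⟨z, fun _ => ⟨hz, hz'⟩⟩
        · exact ⟨0, fun h => absurd h hx⟩
      choose z hz using hz
      refine ⟨C.map z, ?_, ?_, ?_⟩
      · intro x hx
        rw [Multiset.mem_map] at hx
        obtain ⟨u, hu, rfl⟩ := hx
        exact (hz u (hC2 u hu)).1
      · rw [Multiset.card_map, hC1]
        omega
      · intro y _ h1 h2
        have hsc := hSC s ((i : ℝ) / k) δ 1 hs hδ0 one_pos (Icc 0 (m : ℝ)) C hC3 y (by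
          constructor
          · apply div_nonneg _ hδ0.le
            linarith
          · rw [div_le_iff₀ hδ0, mul_comm, hδm]
            rw [add_div] at h2
            linarith)
        rw [mul_one] at hsc
        have := hPERT s θ δ hs hθ0 hθ1 hδ0 C (fun x => |y - ((i : ℝ) / k + δ * x)|)
          (fun x => |y - z x|) (fun x _ => abs_nonneg _) (by
            intro x hx
            rw [hθδ]
            have h3 := (hz x (hC2 x hx)).2
            have h4 : y - z x = (y - ((i : ℝ) / k + δ * x)) + (((i : ℝ) / k + δ * x) - z x) := by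
              ring
            calc |y - z x| = |(y - ((i : ℝ) / k + δ * x)) + (((i : ℝ) / k + δ * x) - z x)| := by
                  rw [← h4]
              _ ≤ |y - ((i : ℝ) / k + δ * x)| + |((i : ℝ) / k + δ * x) - z x| := abs_add_le _ _
              _ ≤ _ := by linarith) (by
            unfold U at hsc
            rw [Multiset.map_map] at hsc
            exact hsc)
        unfold U
        rw [Multiset.map_map]
        exact this
  have hcell' : ∀ i : ℕ, ∃ Xi : Multiset ℝ, i ∈ cells K k → (∀ x ∈ Xi, x ∈ K) ∧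
      Xi.card ≤ G s m + (if i ∈ bad K k p then p else 0) ∧
      ∀ y ∈ K, (i : ℝ) / k ≤ y → y < ((i : ℝ) + 1) / k →
        (ENNReal.ofReal ((1 + θ) * δ)) ^ (-s) ≤ U s Xi y := by
    intro i
    by_cases hi : i ∈ cells K k
    · obtain ⟨Xi, h⟩ := hcell i hi
      exact ⟨Xi, fun _ => h⟩
    · exact ⟨0, fun h => absurd h hi⟩
  choose f hf using hcell'
  refine ⟨∑ i ∈ cells K k, f i, ?_, ?_, ?_⟩
  · intro x hx
    rw [Multiset.mem_sum] at hx
    obtain ⟨i, hi, hx⟩ := hx
    exact (hf i hi).1 x hx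
  · intro y hy
    obtain ⟨i, hi1, hi2, hi3⟩ := loc hk (hK hy)
    have hi : i ∈ cells K k := mem_cells.2 ⟨by omega, y, hy, hi2, hi3⟩
    exact ((hf i hi).2.2 y hy hi2 hi3).trans (U_le_sum s _ f y hi)
  · rw [Multiset.card_sum]
    calc ∑ i ∈ cells K k, (f i).card ≤
        ∑ i ∈ cells K k, (G s m + (if i ∈ bad K k p then p else 0)) :=
          Finset.sum_le_sum fun i hi => (hf i hi).2.1
      _ = G s m * (cells K k).card + ((cells K k) ∩ (bad K k p)).card * p := by
          rw [Finset.sum_add_distrib, Finset.sum_const, smul_eq_mul, Finset.sum_ite_mem,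
            Finset.sum_const, smul_eq_mul, mul_comm]
      _ ≤ G s m * (cells K k).card + p * (bad K k p).card := by
          have h1 : ((cells K k) ∩ (bad K k p)).card ≤ (bad K k p).card :=
            Finset.card_le_card Finset.inter_subset_right
          have h2 := Nat.mul_le_mul_right p h1
          rw [mul_comm p]
          omega

theorem t_LOWC (hSC : S_SC) (hPERT : S_PERT) (hG1 : S_G1) : S_LOWC := by
  classical
  intro s hs K hK m r k hm hr hk X hX
  obtain ⟨C, hC1, hC2, hC3⟩ := hG1 s hs m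
  have hm0 : (0 : ℝ) < m := by exact_mod_cast hm
  have hr0 : (0 : ℝ) < r := by exact_mod_cast hr
  have hk0 : (0 : ℝ) < k := by exact_mod_cast hk
  obtain ⟨p, hp⟩ : ∃ p : ℕ, p = m * r ^ 2 := ⟨_, rfl⟩
  have hp1 : 1 ≤ p := by rw [hp]; exact Nat.one_le_iff_ne_zero.2 (by positivity)
  have hp0 : (0 : ℝ) < p := by exact_mod_cast hp1
  have hpc : (p : ℝ) = m * r ^ 2 := by rw [hp]; push_cast; ring
  obtain ⟨δ, hδ⟩ : ∃ δ : ℝ, δ = 1 / ((m : ℝ) * k) := ⟨_, rfl⟩
  have hδ0 : 0 < δ := by rw [hδ]; positivity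
  obtain ⟨θ, hθ⟩ : ∃ θ : ℝ, θ = 1 / (r : ℝ) := ⟨_, rfl⟩
  have hθ0 : 0 < θ := by rw [hθ]; positivity
  have hθ1 : θ ≤ 1 := by
    rw [hθ, div_le_one hr0]
    exact_mod_cast hr
  have hθδ : θ ^ 2 * δ = 1 / ((k : ℝ) * p) := by
    rw [hθ, hδ, hpc]
    field_simp
  have hδm : δ * m = 1 / k := by
    rw [hδ]
    field_simp
  have hle : δ ≤ (1 + θ) * δ := by nlinarith
  rw [← hδ] at hX
  rw [← hp, ← hδ, ← hθ]
  refine ⟨X + (∑ i ∈ (Finset.range (k + 1)) \ cells K k, C.map (fun x => (i : ℝ) / k + δ * x)) +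
    ∑ i ∈ bad K k p, (Multiset.range (m + 1)).map (fun l : ℕ => (i : ℝ) / k + δ * (l : ℝ)), ?_, ?_⟩
  · intro y hy
    obtain ⟨i, hi1, hi2, hi3⟩ := loc hk hy
    rw [U_add, U_add]
    by_cases hi : i ∈ cells K k
    · by_cases hb : i ∈ bad K k p
      · have h1 := U_le_sum s (bad K k p)
          (fun i : ℕ => (Multiset.range (m + 1)).map (fun l : ℕ => (i : ℝ) / k + δ * (l : ℝ))) y hb
        refine le_trans (le_trans ?_ h1) le_add_self
        have h0 : 0 ≤ (y - (i : ℝ) / k) / δ := div_nonneg (by linarith) hδ0.le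
        have hf1 := Nat.floor_le h0
        have hf2 := Nat.lt_floor_add_one ((y - (i : ℝ) / k) / δ)
        rw [le_div_iff₀ hδ0] at hf1
        rw [div_lt_iff₀ hδ0] at hf2
        refine le_U_of_mem hs (x := (i : ℝ) / k + δ * ((⌊(y - (i : ℝ) / k) / δ⌋₊ : ℕ) : ℝ)) ?_ ?_
        · show _ ∈ (Multiset.range (m + 1)).map (fun l : ℕ => (i : ℝ) / k + δ * (l : ℝ))
          rw [Multiset.mem_map]
          refine ⟨⌊(y - (i : ℝ) / k) / δ⌋₊, ?_, rfl⟩
          rw [Multiset.mem_range]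
          have h3 : ⌊(y - (i : ℝ) / k) / δ⌋₊ ≤ m := by
            apply Nat.floor_le_of_le
            rw [div_le_iff₀ hδ0, mul_comm, hδm]
            rw [add_div] at hi3
            linarith
          omega
        · refine le_trans ?_ hle
          rw [abs_le]
          constructor <;> linarith
      · obtain ⟨z, hz, hz'⟩ := near hk hp1 hi hb hi2 hi3.le
        refine le_trans ?_ (le_trans (le_self_add (b := U s (∑ i ∈ (Finset.range (k + 1)) \ cells K k,
          C.map (fun x => (i : ℝ) / k + δ * x)) y)) le_self_add)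
        have := hPERT s θ δ hs hθ0 hθ1 hδ0 X (fun x => |z - x|) (fun x => |y - x|)
          (fun x _ => abs_nonneg _) (by
            intro x _
            rw [hθδ]
            calc |y - x| = |(z - x) + (y - z)| := by congr 1; ring
              _ ≤ |z - x| + |y - z| := abs_add_le _ _
              _ ≤ _ := by linarith) (hX z hz)
        exact this
    · have hmem : i ∈ (Finset.range (k + 1)) \ cells K k := by
        rw [Finset.mem_sdiff, Finset.mem_range]
        exact ⟨by omega, hi⟩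
      have h1 := U_le_sum s ((Finset.range (k + 1)) \ cells K k)
        (fun i : ℕ => C.map (fun x => (i : ℝ) / k + δ * x)) y hmem
      refine le_trans ?_ (le_trans h1 (le_trans le_add_self le_self_add))
      have hsc := hSC s ((i : ℝ) / k) δ 1 hs hδ0 one_pos (Icc 0 (m : ℝ)) C hC3 y (by
        constructor
        · apply div_nonneg _ hδ0.le
          linarith
        · rw [div_le_iff₀ hδ0, mul_comm, hδm]
          rw [add_div] at hi3
          linarith)
      rw [mul_one] at hsc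
      exact (rpow_anti hs hle).trans hsc
  · rw [Multiset.card_add, Multiset.card_add, Multiset.card_sum, Multiset.card_sum]
    simp only [Multiset.card_map, Multiset.card_range, hC1]
    rw [Finset.sum_const, Finset.sum_const, smul_eq_mul, smul_eq_mul]
    have hsub : cells K k ⊆ Finset.range (k + 1) := by
      unfold cells
      exact Finset.filter_subset _ _
    rw [Finset.card_sdiff_of_subset hsub, Finset.card_range, mul_comm (G s m), mul_comm (m + 1)]

end Pool.Agent.Run7.h136.PC
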